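import Pool.Agent.Helper59_Sob.B2a
import Pool.Agent.Helper27_Sob.Statements

/-!
Module B2 (general position) of the squad MP_60fe1d_an.
-/

set_option autoImplicit false

open Set Filter Topology Metric MeasureTheory
open scoped ENNReal NNReal

namespace Pool.Agent.Helper59Sob

open Pool.Agent.Helper27Sob

/-- The projection along `(t, 1)` is bounded below on subspaces not containing `(t, 1)`. -/
theorem inj_bound (t : Z) (W : Submodule ℝ E) (h : dirv t ∉ W) :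
    ∃ c : ℝ, 0 ≤ c ∧ ∀ v ∈ W, ‖v‖ ≤ c * ‖prj t v‖ := by
  let f : W →ₗ[ℝ] Z := (prj t).comp W.subtype
  have hf : LinearMap.ker f = ⊥ := by
    rw [LinearMap.ker_eq_bot']
    intro v hv
    have h0 : prj t (v : E) = 0 := hv
    have h1 := prj_eq_zero h0
    by_contra hne
    apply h
    have h5 : (v : E) (Fin.last 4) ≠ 0 := by
      intro h5
      apply hne
      rw [h5, zero_smul] at h1
      exact Subtype.ext h1
    have : dirv t = ((v : E) (Fin.last 4))⁻¹ • (v : E) := by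
      conv_rhs => rw [h1]
      rw [smul_smul]
      rw [Pi.smul_apply, dirv_last, smul_eq_mul, mul_one, inv_mul_cancel₀ h5, one_smul]
    rw [this]
    exact W.smul_mem _ v.2
  obtain ⟨K, hK, hanti⟩ := LinearMap.exists_antilipschitzWith f hf
  refine ⟨K, K.2, fun v hv => ?_⟩
  have := hanti.le_mul_dist ⟨v, hv⟩ 0
  rw [dist_zero_right, map_zero, dist_zero_right] at this
  exact this

/-- The space of directions of the image of a cell by an affine map. -/
noncomputable def DD (a : Cell × (E →ᵃ[ℝ] E)) : Submodule ℝ E := a.1.dir.map a.2.linear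

theorem DD_mem {a : Cell × (E →ᵃ[ℝ] E)} {x y : E} (hx : x ∈ a.1.carrier) (hy : y ∈ a.1.carrier) :
    a.2 x - a.2 y ∈ DD a := by
  refine ⟨x - y, sub_mem_dir hx hy, ?_⟩
  exact a.2.linearMap_vsub x y

theorem DD_finrank {a : Cell × (E →ᵃ[ℝ] E)} (h : a.1.dim = 2) : Module.finrank ℝ (DD a) ≤ 2 := by
  refine (Submodule.finrank_map_le _ _).trans ?_
  rw [← h]
  exact finrank_dir _

/-- The span of the differences of the images of two cells. -/
noncomputable def WW (a b : Cell × (E →ᵃ[ℝ] E)) : Submodule ℝ E :=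
  (DD a ⊔ DD b) ⊔ Submodule.span ℝ {a.2 a.1.center - b.2 b.1.center}

theorem center_mem (F : Cell) : F.center ∈ F.carrier := by
  intro j
  rw [sub_self, abs_zero]
  split_ifs
  · have := len_pos F
    positivity
  · exact le_rfl

theorem WW_mem {a b : Cell × (E →ᵃ[ℝ] E)} {x y : E} (hx : x ∈ a.1.carrier)
    (hy : y ∈ b.1.carrier) : a.2 x - b.2 y ∈ WW a b := by
  have e : a.2 x - b.2 y = ((a.2 x - a.2 a.1.center) - (b.2 y - b.2 b.1.center)) +
      (a.2 a.1.center - b.2 b.1.center) := by abel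
  rw [e]
  refine Submodule.add_mem_sup (Submodule.sub_mem _ ?_ ?_) (Submodule.mem_span_singleton_self _)
  · exact Submodule.mem_sup_left (DD_mem hx (center_mem _))
  · exact Submodule.mem_sup_right (DD_mem hy (center_mem _))

/-- The set of pairs of points of two pieces over the same point. -/
def QQ (κ : E → E) (t : Z) (a b : Cell × (E →ᵃ[ℝ] E)) : Set (E × E) :=
  {pq | pq.1 ∈ a.1.carrier ∧ κ pq.1 = a.2 pq.1 ∧ pq.2 ∈ b.1.carrier ∧ κ pq.2 = b.2 pq.2 ∧
    pq.1 ≠ pq.2 ∧ prj t (κ pq.1) = prj t (κ pq.2)}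

theorem QQ_subsingleton {κ : E → E} (hκ : Function.Injective κ) {t : Z}
    {a b : Cell × (E →ᵃ[ℝ] E)} (ha : a.1.dim = 2) (hb : b.1.dim = 2)
    (h₁ : dirv t ∉ DD a ⊔ DD b) (h₂ : WW a b ≠ ⊤ → dirv t ∉ WW a b) :
    (QQ κ t a b).Subsingleton := by
  rintro ⟨p, q⟩ ⟨hp, hkp, hq, hkq, hne, he⟩ ⟨p', q'⟩ ⟨hp', hkp', hq', hkq', hne', he'⟩
  simp only at *
  set v := κ p - κ q with hv
  set v' := κ p' - κ q' with hv'
  have hv0 : prj t v = 0 := by rw [hv, map_sub, he, sub_self]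
  have hv0' : prj t v' = 0 := by rw [hv', map_sub, he', sub_self]
  have e1 := prj_eq_zero hv0
  have e2 := prj_eq_zero hv0'
  have hvW : v ∈ WW a b := by rw [hv, hkp, hkq]; exact WW_mem hp hq
  have hs : v (Fin.last 4) ≠ 0 := by
    intro hs
    rw [hs, zero_smul, hv, sub_eq_zero] at e1
    exact hne (hκ e1)
  have hdW : dirv t ∈ WW a b := by
    have : dirv t = (v (Fin.last 4))⁻¹ • v := by
      conv_rhs => rw [e1]
      rw [smul_smul, Pi.smul_apply, dirv_last, smul_eq_mul, mul_one, inv_mul_cancel₀ hs, one_smul]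
    rw [this]
    exact Submodule.smul_mem _ _ hvW
  have hW : WW a b = ⊤ := by
    by_contra h
    exact h₂ h hdW
  -- dimensions
  have hd1 : Module.finrank ℝ (WW a b) = 5 := by
    rw [hW, finrank_top, Module.finrank_fintype_fun_eq_card, Fintype.card_fin]
  have hd2 : Module.finrank ℝ (WW a b) ≤ Module.finrank ℝ (DD a ⊔ DD b : Submodule ℝ E) + 1 := by
    refine (Submodule.finrank_add_le_finrank_add_finrank _ _).trans ?_
    gcongr
    refine (finrank_span_le_card _).trans ?_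
    simp
  have hd3 := Submodule.finrank_sup_add_finrank_inf_eq (DD a) (DD b)
  have hd4 := DD_finrank ha
  have hd5 := DD_finrank hb
  have hinf : DD a ⊓ DD b = ⊥ := by
    rw [← Submodule.finrank_eq_zero (R := ℝ)]
    omega
  -- the difference
  have hdiff : (a.2 p - a.2 p') - (b.2 q - b.2 q') =
      (v (Fin.last 4) - v' (Fin.last 4)) • dirv t := by
    rw [sub_smul, ← e1, ← e2, hv, hv', hkp, hkq, hkp', hkq']
    abel
  have hmem : (a.2 p - a.2 p') - (b.2 q - b.2 q') ∈ DD a ⊔ DD b :=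
    Submodule.sub_mem _ (Submodule.mem_sup_left (DD_mem hp hp'))
      (Submodule.mem_sup_right (DD_mem hq hq'))
  have hs' : v (Fin.last 4) - v' (Fin.last 4) = 0 := by
    by_contra hs'
    apply h₁
    rw [hdiff] at hmem
    have := Submodule.smul_mem _ (v (Fin.last 4) - v' (Fin.last 4))⁻¹ hmem
    rwa [smul_smul, inv_mul_cancel₀ hs', one_smul] at this
  rw [hs', zero_smul, sub_eq_zero] at hdiff
  have hin : a.2 p - a.2 p' ∈ DD a ⊓ DD b := ⟨DD_mem hp hp', by rw [hdiff]; exact DD_mem hq hq'⟩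
  rw [hinf, Submodule.mem_bot] at hin
  have hin2 : b.2 q - b.2 q' = 0 := by rw [← hdiff, hin]
  rw [sub_eq_zero] at hin hin2
  have e3 : p = p' := hκ (by rw [hkp, hkp', hin])
  have e4 : q = q' := hκ (by rw [hkq, hkq', hin2])
  rw [e3, e4]

theorem b2 (h1 : A1Statement) : B2Statement := by
  intro C κ hC hκ hκs hsel hbox R
  obtain ⟨-, -, -, hdist, hfin, hcpt⟩ := h1 C hC.isClosed
  have hK := hcpt hC R
  have hFC : ∀ F ∈ K2 C R, F.carrier ⊆ Cᶜ := by
    intro F hF x hx hxC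
    have := hdist F hF.1 x hx x hxC
    rw [sub_self, norm_zero] at this
    exact absurd this (not_le.2 (len_pos F))
  have hex : ∀ F : Cell, ∃ A : Set (E →ᵃ[ℝ] E), A.Finite ∧
      (F ∈ K2 C R → ∀ x ∈ F.carrier, ∃ L ∈ A, κ x = L x) := by
    intro F
    by_cases hF : F ∈ K2 C R
    · obtain ⟨A, hA, h⟩ := exists_sel hsel (isCompact_carrier F) (hFC F hF)
      exact ⟨A, hA, fun _ => h⟩
    · exact ⟨∅, finite_empty, fun h => absurd h hF⟩
  choose AA hAfin hAA using hex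
  let PP : Set (Cell × (E →ᵃ[ℝ] E)) := {a | a.1 ∈ K2 C R ∧ a.2 ∈ AA a.1}
  have hPc : PP.Countable := by
    have : PP ⊆ ⋃ F : Cell, (fun L => (F, L)) '' AA F := by
      rintro ⟨F, L⟩ ⟨_, hL⟩
      exact mem_iUnion.2 ⟨F, L, hL, rfl⟩
    exact (countable_iUnion fun F => ((hAfin F).countable.image _)).mono this
  have hPdim : ∀ a ∈ PP, a.1.dim = 2 := fun a ha => ha.1.2.1
  -- the conditions on `t`
  have N1 := null_boxed hbox (boxed_mono hbox)
  have N2 : ∀ᵐ t : Z, ∀ F ∈ K2 C R, ∀ c ∈ κ '' C, ∀ y ∈ κ '' F.carrier, c ≠ y →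
      prj t c ≠ prj t y := by
    rw [ae_ball_iff (to_countable _)]
    intro F hF
    obtain ⟨L, hL⟩ := hκ.lipschitzOn_of_isCompact (isCompact_carrier F) (hFC F hF)
    exact null_boxed hbox (boxed_square hF.2.1 hL)
  have N3 : ∀ᵐ t : Z, ∀ a ∈ PP, ∀ b ∈ PP, dirv t ∉ DD a ⊔ DD b := by
    rw [ae_ball_iff hPc]
    intro a ha
    rw [ae_ball_iff hPc]
    intro b hb
    refine null_submodule _ ?_
    intro htop
    have hd1 : Module.finrank ℝ (DD a ⊔ DD b : Submodule ℝ E) = 5 := by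
      rw [htop, finrank_top, Module.finrank_fintype_fun_eq_card, Fintype.card_fin]
    have hd2 := Submodule.finrank_add_le_finrank_add_finrank (DD a) (DD b)
    have hd4 := DD_finrank (hPdim a ha)
    have hd5 := DD_finrank (hPdim b hb)
    omega
  have N4 : ∀ᵐ t : Z, ∀ a ∈ PP, ∀ b ∈ PP, WW a b ≠ ⊤ → dirv t ∉ WW a b := by
    rw [ae_ball_iff hPc]
    intro a ha
    rw [ae_ball_iff hPc]
    intro b hb
    by_cases hW : WW a b = ⊤
    · exact Eventually.of_forall fun t h => absurd hW h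
    · exact (null_submodule _ hW).mono fun t ht _ => ht
  obtain ⟨t, n1, n2, n3, n4⟩ := (N1.and (N2.and (N3.and N4))).exists
  -- g1
  have g1 : ∀ c ∈ C, ∀ p ∈ KK C R, prj t (κ p) = prj t (κ c) → p = c := by
    intro c hc p hp he
    by_contra hne
    have hne' : κ c ≠ κ p := fun h => hne (κ.injective h).symm
    rcases hp with hp | hp
    · exact n1 _ (mem_image_of_mem _ hc) _ (mem_image_of_mem _ hp) hne' he.symm
    · obtain ⟨F, hF, hpF⟩ := mem_iUnion₂.1 hp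
      exact n2 F hF _ (mem_image_of_mem _ hc) _ (mem_image_of_mem _ hpF) hne' he.symm
  have hpiece : ∀ p ∈ KK C R, p ∉ C → ∃ a ∈ PP, p ∈ a.1.carrier ∧ κ p = a.2 p := by
    intro p hp hpC
    rcases hp with hp | hp
    · exact absurd hp hpC
    · obtain ⟨F, hF, hpF⟩ := mem_iUnion₂.1 hp
      obtain ⟨L, hL, he⟩ := hAA F hF p hpF
      exact ⟨(F, L), ⟨hF, hL⟩, hpF, he⟩
  have hfin' : ∀ T : Set E, IsCompact T → Disjoint T C →
      {a | a ∈ PP ∧ (a.1.carrier ∩ T).Nonempty}.Finite := by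
    intro T hT hTC
    refine ((hfin T hT hTC).biUnion fun F _ => (hAfin F).image (fun L => (F, L))).subset ?_
    rintro ⟨F, L⟩ ⟨⟨hF, hL⟩, hne⟩
    exact mem_iUnion₂.2 ⟨F, ⟨hF.1, hne⟩, L, hL, rfl⟩
  have hball : ∀ p₀, p₀ ∉ C → ∃ r > 0, Disjoint (closedBall p₀ r) C := by
    intro p₀ hp₀
    obtain ⟨r, hr, hsub⟩ := Metric.nhds_basis_closedBall.mem_iff.1
      (hC.isClosed.isOpen_compl.mem_nhds hp₀)
    exact ⟨r, hr, disjoint_left.2 fun x hx hxC => hsub hx hxC⟩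
  refine ⟨t, ⟨?_, ?_, ?_⟩⟩
  · intro c hc p hp he
    exact g1 c hc p hp he
  · -- g2
    rintro p₀ ⟨hp₀K, hp₀C⟩
    obtain ⟨r₀, hr₀, hdisj⟩ := hball p₀ hp₀C
    have hf := hfin' _ (isCompact_closedBall p₀ r₀) hdisj
    set FF := {a | a ∈ PP ∧ (a.1.carrier ∩ closedBall p₀ r₀).Nonempty} with hFF
    -- near `p₀` only pieces through `p₀`
    have hev : ∀ᶠ x in 𝓝 p₀, ∀ a ∈ FF, x ∈ a.1.carrier ∧ κ x = a.2 x →
        p₀ ∈ a.1.carrier ∧ κ p₀ = a.2 p₀ := by
      rw [Filter.eventually_all_finite hf]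
      intro a _
      by_cases h : p₀ ∈ a.1.carrier ∧ κ p₀ = a.2 p₀
      · exact Eventually.of_forall fun x _ => h
      · have hcl : IsClosed {x | x ∈ a.1.carrier ∧ κ x = a.2 x} :=
          (isClosed_carrier a.1).inter
            (isClosed_eq κ.continuous a.2.continuous_of_finiteDimensional)
        filter_upwards [hcl.isOpen_compl.mem_nhds h] with x hx hx'
        exact absurd hx' hx
    have hκp : κ p₀ ∈ (κ '' C)ᶜ := by
      rintro ⟨c, hc, he⟩
      exact hp₀C (κ.injective he ▸ hc)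
    obtain ⟨r₂, hr₂, K₁, hK₁⟩ := hκs _ hκp
    have hev2 : ∀ᶠ x in 𝓝 p₀, κ x ∈ ball (κ p₀) r₂ :=
      κ.continuous.continuousAt.eventually_mem (ball_mem_nhds _ hr₂)
    obtain ⟨r, hr, hball'⟩ := Metric.eventually_nhds_iff_ball.1
      (hev.and (hev2.and (closedBall_mem_nhds p₀ hr₀)))
    -- the constants
    have hconst : ∀ ab : (Cell × (E →ᵃ[ℝ] E)) × (Cell × (E →ᵃ[ℝ] E)), ∃ c : ℝ,
        ab.1 ∈ PP → ab.2 ∈ PP → ∀ v ∈ DD ab.1 ⊔ DD ab.2, ‖v‖ ≤ c * ‖prj t v‖ := by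
      intro ab
      by_cases h : ab.1 ∈ PP ∧ ab.2 ∈ PP
      · obtain ⟨c, _, hc⟩ := inj_bound t _ (n3 _ h.1 _ h.2)
        exact ⟨c, fun _ _ => hc⟩
      · exact ⟨0, fun h1 h2 => absurd ⟨h1, h2⟩ h⟩
    choose cc hcc using hconst
    obtain ⟨M, hM⟩ := ((hf.prod hf).image cc).bddAbove
    refine ⟨r, hr, K₁ * M, ?_⟩
    rintro p ⟨hpK, hpb⟩ q ⟨hqK, hqb⟩
    obtain ⟨hp1, hp2, hp3⟩ := hball' p hpb
    obtain ⟨hq1, hq2, hq3⟩ := hball' q hqb
    obtain ⟨a, ha, hpa, hpa'⟩ := hpiece p hpK fun h => disjoint_left.1 hdisj hp3 h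
    obtain ⟨b, hb, hqb, hqb'⟩ := hpiece q hqK fun h => disjoint_left.1 hdisj hq3 h
    have haF : a ∈ FF := ⟨ha, p, hpa, hp3⟩
    have hbF : b ∈ FF := ⟨hb, q, hqb, hq3⟩
    obtain ⟨ha1, ha2⟩ := hp1 a haF ⟨hpa, hpa'⟩
    obtain ⟨hb1, hb2⟩ := hq1 b hbF ⟨hqb, hqb'⟩
    have hmem : κ p - κ q ∈ DD a ⊔ DD b := by
      have e : κ p - κ q = (a.2 p - a.2 p₀) - (b.2 q - b.2 p₀) := by
        rw [hpa', hqb', ← ha2, ← hb2]
        abel
      rw [e]
      exact Submodule.sub_mem _ (Submodule.mem_sup_left (DD_mem hpa ha1))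
        (Submodule.mem_sup_right (DD_mem hqb hb1))
    have h3 := hcc (a, b) ha hb _ hmem
    have h4 : cc (a, b) ≤ M := hM (mem_image_of_mem cc (mk_mem_prod haF hbF))
    have h5 : ‖p - q‖ ≤ K₁ * ‖κ p - κ q‖ := by
      have := hK₁.dist_le_mul _ hp2 _ hq2
      rw [κ.symm_apply_apply, κ.symm_apply_apply, dist_eq_norm, dist_eq_norm] at this
      exact this
    calc ‖p - q‖ ≤ K₁ * ‖κ p - κ q‖ := h5
      _ ≤ K₁ * (M * ‖prj t (κ p - κ q)‖) := by
          gcongr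
          exact h3.trans (by gcongr)
      _ = K₁ * M * ‖prj t (κ p) - prj t (κ q)‖ := by rw [map_sub]; ring
  · -- g3
    rintro p₀ ⟨hp₀K, hp₀C⟩
    obtain ⟨r₀, hr₀, hdisj⟩ := hball p₀ hp₀C
    have hcont : Continuous fun x => prj t (κ x) :=
      ((prj t).continuous_of_finiteDimensional).comp κ.continuous
    let T : Set (E × E) := ((KK C R ∩ closedBall p₀ r₀) ×ˢ KK C R) ∩
      {pq | prj t (κ pq.1) = prj t (κ pq.2)}
    have hT : IsCompact T :=
      ((hK.inter_right isClosed_closedBall).prod hK).inter_right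
        (isClosed_eq (hcont.comp continuous_fst) (hcont.comp continuous_snd))
    have hT2 : IsCompact (Prod.snd '' T) := hT.image continuous_snd
    have hT2C : Disjoint (Prod.snd '' T) C := by
      rw [disjoint_left]
      rintro q ⟨⟨p, q'⟩, ⟨⟨⟨hpK, hpb⟩, hqK⟩, he⟩, rfl⟩ hqC
      have := g1 _ hqC p hpK he
      simp only at this hqC
      rw [← this] at hqC
      exact disjoint_left.1 hdisj hpb hqC
    have hf1 := hfin' _ (isCompact_closedBall p₀ r₀) hdisj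
    have hf2 := hfin' _ hT2 hT2C
    refine ⟨r₀, hr₀, ?_⟩
    refine ((hf1.prod hf2).biUnion (t := fun ab => QQ κ t ab.1 ab.2) ?_).subset ?_
    · rintro ⟨a, b⟩ ⟨ha, hb⟩
      exact (QQ_subsingleton κ.injective (hPdim a ha.1) (hPdim b hb.1) (n3 a ha.1 b hb.1)
        (n4 a ha.1 b hb.1)).finite
    · rintro ⟨p, q⟩ ⟨⟨hpK, hpb⟩, hqK, hne, he⟩
      have hpb' := ball_subset_closedBall hpb
      have hpT : (p, q) ∈ T := ⟨⟨⟨hpK, hpb'⟩, hqK⟩, he⟩
      have hqT : q ∈ Prod.snd '' T := ⟨(p, q), hpT, rfl⟩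
      obtain ⟨a, ha, hpa, hpa'⟩ := hpiece p hpK fun h => disjoint_left.1 hdisj hpb' h
      obtain ⟨b, hb, hqb, hqb'⟩ := hpiece q hqK fun h => disjoint_left.1 hT2C hqT h
      exact mem_iUnion₂.2 ⟨(a, b), ⟨⟨ha, p, hpa, hpb'⟩, ⟨hb, q, hqb, hqT⟩⟩,
        hpa, hpa', hqb, hqb', hne, he⟩

end Pool.Agent.Helper59Sob
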