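import Pool.Agent.Helper59_Sob.Null

/-!
Module B2 (general position), part 2: cells.
-/

set_option autoImplicit false

open Set Filter Topology Metric MeasureTheory
open scoped ENNReal NNReal

namespace Pool.Agent.Helper59Sob

open Pool.Agent.Helper27Sob

theorem boxed_mono {Y : Set E} (h : Boxed 32 Y) : Boxed 64 Y := by
  obtain ⟨A, hA⟩ := h
  refine ⟨max A 0, fun m => ?_⟩
  obtain ⟨T, hT, hc⟩ := hA m
  refine ⟨T, hT.trans ?_, hc.trans ?_⟩
  · calc A * 32 ^ m ≤ max A 0 * 32 ^ m := by gcongr; exact le_max_left _ _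
      _ ≤ max A 0 * 64 ^ m := by
        have : 0 ≤ max A 0 := le_max_right _ _
        gcongr
        norm_num
  · refine iUnion₂_mono fun y _ => closedBall_subset_closedBall ?_
    gcongr
    exact le_max_left _ _

theorem len_pos (F : Cell) : 0 < F.len := by
  unfold Cell.len ell
  positivity

theorem isClosed_carrier (F : Cell) : IsClosed F.carrier := by
  have : F.carrier = ⋂ j, {x : E | |x j - F.center j| ≤ if Odd (F.q j) then F.len / 2 else 0} := by
    ext x
    simp [Cell.carrier]
  rw [this]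
  refine isClosed_iInter fun j => ?_
  exact isClosed_le (by fun_prop) continuous_const

theorem isCompact_carrier (F : Cell) : IsCompact F.carrier := by
  refine (isCompact_closedBall F.center (F.len / 2)).of_isClosed_subset (isClosed_carrier F) ?_
  intro x hx
  rw [mem_closedBall, dist_eq_norm, pi_norm_le_iff_of_nonneg (by have := len_pos F; positivity)]
  intro j
  rw [Pi.sub_apply, Real.norm_eq_abs]
  refine (hx j).trans ?_
  split_ifs
  · exact le_rfl
  · have := len_pos F
    positivity

theorem sub_mem_dir {F : Cell} {x y : E} (hx : x ∈ F.carrier) (hy : y ∈ F.carrier) :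
    x - y ∈ F.dir := by
  intro j hj
  have h1 := hx j
  have h2 := hy j
  rw [if_neg hj] at h1 h2
  have h3 := abs_nonpos_iff.1 h1
  have h4 := abs_nonpos_iff.1 h2
  rw [Pi.sub_apply]
  linarith

theorem finrank_dir (F : Cell) : Module.finrank ℝ F.dir ≤ F.dim := by
  let f : F.dir →ₗ[ℝ] ({j : Fin 5 // Odd (F.q j)} → ℝ) :=
    { toFun := fun v j => (v : E) j
      map_add' := fun a b => rfl
      map_smul' := fun c a => rfl }
  have hf : Function.Injective f := by
    intro a b h
    ext j
    by_cases hj : Odd (F.q j)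
    · exact congrFun h ⟨j, hj⟩
    · rw [a.2 j hj, b.2 j hj]
  have := LinearMap.finrank_le_finrank_of_injective hf
  rw [Module.finrank_fintype_fun_eq_card] at this
  refine this.trans (le_of_eq ?_)
  rw [Fintype.card_subtype]
  rfl

/-- A Lipschitz image of a square is covered by `64 ^ m` balls of radius `O(8 ^ (-m))`. -/
theorem boxed_square {F : Cell} (hF : F.dim = 2) {f : E → E} {K : ℝ≥0}
    (hf : LipschitzOnWith K f F.carrier) : Boxed 64 (f '' F.carrier) := by
  classical
  refine ⟨max 1 (K * F.len), fun m => ?_⟩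
  set n : ℕ := 8 ^ m with hn
  have hn0 : (0 : ℝ) < n := by positivity
  let J := {j : Fin 5 // Odd (F.q j)}
  let g : (J → Fin n) → E := fun a j => if h : Odd (F.q j) then
    F.center j - F.len / 2 + F.len * ((a ⟨j, h⟩ : ℕ) + 1 / 2) / n else F.center j
  have hl := len_pos F
  have hg : ∀ a, g a ∈ F.carrier := by
    intro a j
    by_cases h : Odd (F.q j)
    · simp only [g, h, dif_pos, if_true]
      have ha : ((a ⟨j, h⟩ : ℕ) : ℝ) + 1 ≤ n := by exact_mod_cast (a ⟨j, h⟩).2
      have e : F.center j - F.len / 2 + F.len * (((a ⟨j, h⟩ : ℕ) : ℝ) + 1 / 2) / n - F.center j =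
        F.len * ((((a ⟨j, h⟩ : ℕ) : ℝ) + 1 / 2) / n - 1 / 2) := by ring
      rw [e, abs_mul, abs_of_pos hl]
      have h1 : (((a ⟨j, h⟩ : ℕ) : ℝ) + 1 / 2) / n ≤ 1 := by
        rw [div_le_one hn0]; linarith
      have h0 : 0 ≤ (((a ⟨j, h⟩ : ℕ) : ℝ) + 1 / 2) / n := by positivity
      have : |(((a ⟨j, h⟩ : ℕ) : ℝ) + 1 / 2) / n - 1 / 2| ≤ 1 / 2 := by
        rw [abs_le]; constructor <;> linarith
      calc F.len * _ ≤ F.len * (1 / 2) := by gcongr
        _ = F.len / 2 := by ring
    · simp [g, h]
  refine ⟨Finset.univ.image fun a => f (g a), ?_, ?_⟩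
  · have h1 : (Finset.univ.image fun a => f (g a)).card ≤ n ^ 2 := by
      refine Finset.card_image_le.trans (le_of_eq ?_)
      rw [Finset.card_univ, Fintype.card_fun, Fintype.card_fin]
      congr 1
      rw [← hF, Fintype.card_subtype]
      rfl
    calc (((Finset.univ.image fun a => f (g a)).card : ℕ) : ℝ) ≤ ((n ^ 2 : ℕ) : ℝ) := by
          exact_mod_cast h1
      _ = 1 * 64 ^ m := by
          rw [hn]; push_cast; rw [← pow_mul, mul_comm m 2, pow_mul]; norm_num
      _ ≤ max 1 (K * F.len) * 64 ^ m := by gcongr; exact le_max_left _ _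
  · rintro _ ⟨x, hx, rfl⟩
    -- the index of `x`
    have hex : ∀ j : J, ∃ a : Fin n, |x j - (F.center j - F.len / 2 +
        F.len * ((a : ℕ) + 1 / 2) / n)| ≤ F.len / n := by
      rintro ⟨j, h⟩
      have hxj := hx j
      rw [if_pos h, abs_le] at hxj
      set y : ℝ := (x j - F.center j + F.len / 2) / F.len * n with hy
      have hy0 : 0 ≤ y := by
        rw [hy]
        have : 0 ≤ x j - F.center j + F.len / 2 := by linarith
        positivity
      have hyn : y ≤ n := by
        rw [hy]
        have : (x j - F.center j + F.len / 2) / F.len ≤ 1 := by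
          rw [div_le_one hl]; linarith
        nlinarith
      have hxy : x j = F.center j - F.len / 2 + F.len * y / n := by
        rw [hy]; field_simp; ring
      have hn1 : 1 ≤ n := Nat.one_le_pow _ _ (by norm_num)
      have habs : ∀ z : ℝ, |y - (z + 1 / 2)| ≤ 1 →
          |x j - (F.center j - F.len / 2 + F.len * (z + 1 / 2) / n)| ≤ F.len / n := by
        intro z hz
        have e : x j - (F.center j - F.len / 2 + F.len * (z + 1 / 2) / n) =
            F.len / n * (y - (z + 1 / 2)) := by rw [hxy]; ring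
        rw [e, abs_mul, abs_of_pos (by positivity)]
        calc F.len / n * _ ≤ F.len / n * 1 := by gcongr
          _ = F.len / n := mul_one _
      by_cases hlt : ⌊y⌋₊ < n
      · refine ⟨⟨⌊y⌋₊, hlt⟩, habs _ ?_⟩
        have h1 := Nat.floor_le hy0
        have h2 := Nat.lt_floor_add_one y
        rw [abs_le]; constructor <;> linarith
      · push Not at hlt
        refine ⟨⟨n - 1, by omega⟩, habs _ ?_⟩
        have h1 : (n : ℝ) ≤ y := (Nat.cast_le.2 hlt).trans (Nat.floor_le hy0)
        have h2 : y = n := le_antisymm hyn h1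
        have h3 : ((n - 1 : ℕ) : ℝ) = n - 1 := by
          rw [Nat.cast_sub hn1, Nat.cast_one]
        simp only [h3, h2]
        rw [abs_le]; constructor <;> linarith
    choose a ha using hex
    refine mem_iUnion₂.2 ⟨f (g a), Finset.mem_image_of_mem _ (Finset.mem_univ a), ?_⟩
    rw [mem_closedBall]
    have h1 := hf.dist_le_mul x hx (g a) (hg a)
    have h2 : dist x (g a) ≤ F.len / n := by
      rw [dist_eq_norm, pi_norm_le_iff_of_nonneg (by positivity)]
      intro j
      rw [Pi.sub_apply, Real.norm_eq_abs]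
      by_cases h : Odd (F.q j)
      · simp only [g, h, dif_pos]
        exact ha ⟨j, h⟩
      · simp only [g, h, dif_neg, not_false_eq_true]
        have := hx j
        rw [if_neg h] at this
        exact this.trans (by positivity)
    calc dist (f x) (f (g a)) ≤ K * dist x (g a) := h1
      _ ≤ K * (F.len / n) := by gcongr
      _ = K * F.len * (1 / 8) ^ m := by
          rw [hn]; push_cast; rw [one_div, inv_pow]; ring
      _ ≤ max 1 (K * F.len) * (1 / 8) ^ m := by gcongr; exact le_max_right _ _

/-- A continuous selection of affine maps uses finitely many affine maps on a compact set. -/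
theorem exists_sel {κ : E → E} {U S : Set E} (h : LocSel κ U) (hS : IsCompact S) (hSU : S ⊆ U) :
    ∃ A : Set (E →ᵃ[ℝ] E), A.Finite ∧ ∀ x ∈ S, ∃ L ∈ A, κ x = L x := by
  refine hS.induction_on (p := fun s => ∃ A : Set (E →ᵃ[ℝ] E), A.Finite ∧
    ∀ x ∈ s, ∃ L ∈ A, κ x = L x) ⟨∅, finite_empty, by simp⟩ ?_ ?_ ?_
  · rintro s t hst ⟨A, hA, h⟩
    exact ⟨A, hA, fun x hx => h x (hst hx)⟩
  · rintro s t ⟨A, hA, h⟩ ⟨B, hB, h'⟩
    refine ⟨A ∪ B, hA.union hB, ?_⟩
    rintro x (hx | hx)
    · obtain ⟨L, hL, e⟩ := h x hx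
      exact ⟨L, Or.inl hL, e⟩
    · obtain ⟨L, hL, e⟩ := h' x hx
      exact ⟨L, Or.inr hL, e⟩
  · intro x hx
    obtain ⟨r, hr, A, hA, hx'⟩ := h x (hSU hx)
    exact ⟨ball x r, mem_nhdsWithin_of_mem_nhds (ball_mem_nhds x hr), A, hA, hx'⟩

instance : Countable Cell := by
  have : Function.Injective (fun F : Cell => (F.i, F.q)) := by
    rintro ⟨i, q⟩ ⟨i', q'⟩ h
    simp only [Prod.mk.injEq] at h
    rw [h.1, h.2]
  exact this.countable

end Pool.Agent.Helper59Sob
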