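import Pool.Agent.Helper27_Sob.Basic

/-!
Module B2 (general position), part 1: null sets of directions.
-/

set_option autoImplicit false

open Set Filter Topology Metric MeasureTheory
open scoped ENNReal NNReal

namespace Pool.Agent.Helper59Sob

open Pool.Agent.Helper27Sob

/-- The vector `(t, 1)`. -/
noncomputable def dirv (t : Z) : E := Fin.snoc (α := fun _ => ℝ) t 1

theorem dirv_castSucc (t : Z) (i : Fin 4) : dirv t i.castSucc = t i :=
  Fin.snoc_castSucc (α := fun _ => ℝ) _ _ _

theorem dirv_last (t : Z) : dirv t (Fin.last 4) = 1 :=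
  Fin.snoc_last (α := fun _ => ℝ) _ _

/-- The vector `(t, 0)`. -/
noncomputable def hor (t : Z) : E := Fin.snoc (α := fun _ => ℝ) t 0

theorem hor_castSucc (t : Z) (i : Fin 4) : hor t i.castSucc = t i :=
  Fin.snoc_castSucc (α := fun _ => ℝ) _ _ _

theorem hor_last (t : Z) : hor t (Fin.last 4) = 0 :=
  Fin.snoc_last (α := fun _ => ℝ) _ _

/-- The projection along `(t, 1)`. -/
noncomputable def prj (t : Z) : E →ₗ[ℝ] Z where
  toFun x := (psi t x).1
  map_add' x y := by
    funext i
    simp [psi]
    ring
  map_smul' c x := by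
    funext i
    simp [psi]
    ring

theorem prj_apply (t : Z) (x : E) : prj t x = (psi t x).1 := rfl

theorem prj_eq_zero {t : Z} {v : E} (h : prj t v = 0) : v = v (Fin.last 4) • dirv t := by
  funext j
  refine Fin.lastCases ?_ (fun i => ?_) j
  · rw [Pi.smul_apply, dirv_last, smul_eq_mul, mul_one]
  · have := congrFun h i
    simp only [prj_apply, psi, Pi.zero_apply] at this
    rw [Pi.smul_apply, dirv_castSucc, smul_eq_mul]
    linarith

theorem psi_eq_iff {t : Z} {x y : E} : (psi t x).1 = (psi t y).1 ↔ prj t (x - y) = 0 := by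
  rw [map_sub, sub_eq_zero]
  rfl

/-- For a proper subspace the directions `(t, 1)` in it are null. -/
theorem null_submodule (W : Submodule ℝ E) (hW : W ≠ ⊤) : ∀ᵐ t : Z, dirv t ∉ W := by
  let f : Z →ₗ[ℝ] E :=
    { toFun := hor
      map_add' := by
        intro a b
        funext j
        refine Fin.lastCases ?_ (fun i => ?_) j
        · simp only [Pi.add_apply, hor_last, add_zero]
        · simp only [Pi.add_apply, hor_castSucc]
      map_smul' := by
        intro c a
        funext j
        refine Fin.lastCases ?_ (fun i => ?_) j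
        · simp only [Pi.smul_apply, hor_last, smul_zero]
        · simp only [Pi.smul_apply, hor_castSucc, RingHom.id_apply] }
  have hf : ∀ t, dirv t = f t + dirv 0 := by
    intro t
    funext j
    refine Fin.lastCases ?_ (fun i => ?_) j
    · change _ = hor t (Fin.last 4) + dirv 0 (Fin.last 4)
      rw [dirv_last, hor_last, dirv_last, zero_add]
    · change _ = hor t i.castSucc + dirv 0 i.castSucc
      rw [dirv_castSucc, hor_castSucc, dirv_castSucc]
      simp
  let S : Submodule ℝ Z := W.comap f
  by_cases hne : ∃ t₀, dirv t₀ ∈ W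
  · obtain ⟨t₀, ht₀⟩ := hne
    let A : AffineSubspace ℝ Z := AffineSubspace.mk' t₀ S
    have hA : A ≠ ⊤ := by
      intro h
      apply hW
      have hall : ∀ t, f t ∈ W := by
        intro t
        have h1 : t₀ + t ∈ A := by rw [h]; trivial
        rw [AffineSubspace.mem_mk'] at h1
        simpa [S] using h1
      rw [eq_top_iff]
      intro x _
      have hx : x = x (Fin.last 4) • dirv t₀ + f (fun i => x i.castSucc - x (Fin.last 4) * t₀ i) := by
        funext j
        refine Fin.lastCases ?_ (fun i => ?_) j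
        · change _ = x (Fin.last 4) * dirv t₀ (Fin.last 4) +
            hor (fun i => x i.castSucc - x (Fin.last 4) * t₀ i) (Fin.last 4)
          rw [dirv_last, hor_last]
          ring
        · change _ = x (Fin.last 4) * dirv t₀ i.castSucc +
            hor (fun i => x i.castSucc - x (Fin.last 4) * t₀ i) i.castSucc
          rw [dirv_castSucc, hor_castSucc]
          ring
      rw [hx]
      exact W.add_mem (W.smul_mem _ ht₀) (hall _)
    have h0 : volume (A : Set Z) = 0 := Measure.addHaar_affineSubspace volume A hA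
    rw [ae_iff]
    refine measure_mono_null ?_ h0
    intro t ht
    simp only [mem_ofPred_eq, not_not] at ht
    simp only [SetLike.mem_coe, A, AffineSubspace.mem_mk', vsub_eq_sub, S, Submodule.mem_comap,
      map_sub]
    have : f t - f t₀ = dirv t - dirv t₀ := by
      rw [hf t, hf t₀]
      abel
    rw [this]
    exact W.sub_mem ht ht₀
  · push Not at hne
    exact Eventually.of_forall hne

/-- Directions between two sets of small box dimension are null. -/
theorem null_boxed {Y₁ Y₂ : Set E} (h₁ : Boxed 32 Y₁) (h₂ : Boxed 64 Y₂) :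
    ∀ᵐ t : Z, ∀ c ∈ Y₁, ∀ y ∈ Y₂, c ≠ y → prj t c ≠ prj t y := by
  obtain ⟨A₁, hA₁⟩ := h₁
  obtain ⟨A₂, hA₂⟩ := h₂
  let N : ℕ → Set Z := fun k => {t | ‖t‖ ≤ k ∧ ∃ c ∈ Y₁, ∃ y ∈ Y₂,
    1 / ((k : ℝ) + 1) ≤ |c (Fin.last 4) - y (Fin.last 4)| ∧ prj t c = prj t y}
  have key : ∀ k, volume (N k) = 0 := by
    intro k
    obtain ⟨A, hA0, hA1, hA2⟩ : ∃ A : ℝ, 0 ≤ A ∧ A₁ ≤ A ∧ A₂ ≤ A :=
      ⟨max 0 (max A₁ A₂), le_max_left _ _, (le_max_left _ _).trans (le_max_right _ _),
        (le_max_right _ _).trans (le_max_right _ _)⟩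
    set D : ℝ := ((k : ℝ) + 1) * ((k + 1) * (4 * A)) with hD
    have hD0 : 0 ≤ D := by positivity
    have hm : ∀ m : ℕ, volume (N k) ≤ ENNReal.ofReal (A * A * D ^ 4 * (1 / 2) ^ m) := by
      intro m
      obtain ⟨T₁, hT₁, hc₁⟩ := hA₁ m
      obtain ⟨T₂, hT₂, hc₂⟩ := hA₂ m
      let r : ℝ := A * (1 / 8) ^ m
      have hr : 0 ≤ r := by positivity
      let P : E × E → Set Z := fun ab => {t | ‖t‖ ≤ k ∧ ∃ c ∈ closedBall ab.1 r,
        ∃ y ∈ closedBall ab.2 r,
        1 / ((k : ℝ) + 1) ≤ |c (Fin.last 4) - y (Fin.last 4)| ∧ prj t c = prj t y}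
      have hP : ∀ ab, volume (P ab) ≤ ENNReal.ofReal ((D * (1 / 8) ^ m) ^ 4) := by
        intro ab
        refine (Real.volume_pi_le_diam_pow (P ab)).trans ?_
        have hd : ediam (P ab) ≤ ENNReal.ofReal (D * (1 / 8) ^ m) := by
          refine ediam_le fun t ht t' ht' => ?_
          obtain ⟨htk, c, hc, y, hy, hcy, he⟩ := ht
          obtain ⟨htk', c', hc', y', hy', hcy', he'⟩ := ht'
          rw [edist_dist]
          refine ENNReal.ofReal_le_ofReal ?_
          rw [dist_eq_norm]
          have hcc : ∀ j, |c j - c' j| ≤ 2 * r := by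
            intro j
            have h1 := norm_le_pi_norm (c - c') j
            have h2 : ‖c - c'‖ ≤ 2 * r := by
              rw [← dist_eq_norm]
              have := dist_triangle_right c c' ab.1
              rw [mem_closedBall] at hc hc'
              linarith
            simpa using h1.trans h2
          have hyy : ∀ j, |y j - y' j| ≤ 2 * r := by
            intro j
            have h1 := norm_le_pi_norm (y - y') j
            have h2 : ‖y - y'‖ ≤ 2 * r := by
              rw [← dist_eq_norm]
              have := dist_triangle_right y y' ab.2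
              rw [mem_closedBall] at hy hy'
              linarith
            simpa using h1.trans h2
          rw [pi_norm_le_iff_of_nonneg (by positivity)]
          intro i
          have e1 := congrFun he i
          have e2 := congrFun he' i
          simp only [prj_apply, psi] at e1 e2
          have hti : |t' i| ≤ k := by
            have := norm_le_pi_norm t' i
            rw [Real.norm_eq_abs] at this
            exact this.trans htk'
          have key2 : (t i - t' i) * (c (Fin.last 4) - y (Fin.last 4)) =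
              (c i.castSucc - c' i.castSucc) - (y i.castSucc - y' i.castSucc) +
              t' i * (-(c (Fin.last 4) - c' (Fin.last 4)) + (y (Fin.last 4) - y' (Fin.last 4))) := by
            linear_combination (-1 : ℝ) * e1 + e2
          have hb : |(t i - t' i) * (c (Fin.last 4) - y (Fin.last 4))| ≤ 4 * r + k * (4 * r) := by
            rw [key2]
            refine (abs_add_le _ _).trans (add_le_add ?_ ?_)
            · refine (abs_sub _ _).trans ?_
              linarith [hcc i.castSucc, hyy i.castSucc]
            · rw [abs_mul]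
              refine mul_le_mul hti ?_ (abs_nonneg _) (by positivity)
              refine (abs_add_le _ _).trans ?_
              rw [abs_neg]
              linarith [hcc (Fin.last 4), hyy (Fin.last 4)]
          rw [abs_mul] at hb
          have hk : (0 : ℝ) < (k : ℝ) + 1 := by positivity
          have h3 : |t i - t' i| * (1 / ((k : ℝ) + 1)) ≤ 4 * r + k * (4 * r) :=
            (mul_le_mul_of_nonneg_left hcy (abs_nonneg _)).trans hb
          rw [mul_one_div, div_le_iff₀ hk] at h3
          rw [Pi.sub_apply, Real.norm_eq_abs]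
          refine h3.trans (le_of_eq ?_)
          simp only [hD, r]
          ring
        calc ediam (P ab) ^ Fintype.card (Fin 4) ≤ ENNReal.ofReal (D * (1 / 8) ^ m) ^ 4 := by
              rw [Fintype.card_fin]
              gcongr
          _ = ENNReal.ofReal ((D * (1 / 8) ^ m) ^ 4) := by
              rw [ENNReal.ofReal_pow (by positivity)]
      have hsub : N k ⊆ ⋃ ab ∈ T₁ ×ˢ T₂, P ab := by
        rintro t ⟨htk, c, hc, y, hy, hcy, he⟩
        obtain ⟨a, ha, hca⟩ : ∃ a ∈ T₁, c ∈ closedBall a (A₁ * (1 / 8) ^ m) := by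
          simpa using hc₁ hc
        obtain ⟨b, hb, hyb⟩ : ∃ b ∈ T₂, y ∈ closedBall b (A₂ * (1 / 8) ^ m) := by
          simpa using hc₂ hy
        simp only [mem_iUnion]
        refine ⟨(a, b), Finset.mem_product.2 ⟨ha, hb⟩, htk, c, ?_, y, ?_, hcy, he⟩
        · exact closedBall_subset_closedBall
            (mul_le_mul_of_nonneg_right hA1 (by positivity)) hca
        · exact closedBall_subset_closedBall
            (mul_le_mul_of_nonneg_right hA2 (by positivity)) hyb
      calc volume (N k) ≤ volume (⋃ ab ∈ T₁ ×ˢ T₂, P ab) := measure_mono hsub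
        _ ≤ ∑ ab ∈ T₁ ×ˢ T₂, volume (P ab) := measure_biUnion_finset_le _ _
        _ ≤ ∑ ab ∈ T₁ ×ˢ T₂, ENNReal.ofReal ((D * (1 / 8) ^ m) ^ 4) :=
            Finset.sum_le_sum fun ab _ => hP ab
        _ = ENNReal.ofReal ((T₁.card : ℝ) * T₂.card * (D * (1 / 8) ^ m) ^ 4) := by
            rw [Finset.sum_const, Finset.card_product, nsmul_eq_mul,
              ENNReal.ofReal_mul (by positivity), ENNReal.ofReal_mul (by positivity)]
            simp
        _ ≤ ENNReal.ofReal (A * A * D ^ 4 * (1 / 2) ^ m) := by
            refine ENNReal.ofReal_le_ofReal ?_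
            have h1 : (T₁.card : ℝ) ≤ A * 32 ^ m := hT₁.trans (by gcongr)
            have h2 : (T₂.card : ℝ) ≤ A * 64 ^ m := hT₂.trans (by gcongr)
            calc (T₁.card : ℝ) * T₂.card * (D * (1 / 8) ^ m) ^ 4
                ≤ (A * 32 ^ m) * (A * 64 ^ m) * (D * (1 / 8) ^ m) ^ 4 := by gcongr
              _ = A * A * D ^ 4 * (32 * 64 * (1 / 8) ^ 4) ^ m := by
                  rw [mul_pow (D : ℝ), mul_pow (32 * 64 : ℝ), mul_pow (32 : ℝ), ← pow_mul (1 / 8 : ℝ),
                    ← pow_mul (1 / 8 : ℝ), mul_comm 4 m]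
                  ring
              _ = A * A * D ^ 4 * (1 / 2) ^ m := by norm_num
    have hlim : Tendsto (fun m : ℕ => ENNReal.ofReal (A * A * D ^ 4 * (1 / 2) ^ m)) atTop (𝓝 0) := by
      rw [← ENNReal.ofReal_zero]
      refine ENNReal.tendsto_ofReal ?_
      have := (tendsto_pow_atTop_nhds_zero_of_lt_one (r := (1 / 2 : ℝ)) (by norm_num)
        (by norm_num)).const_mul (A * A * D ^ 4)
      simpa using this
    exact le_antisymm (ge_of_tendsto' hlim hm) zero_le
  have hU : volume (⋃ k, N k) = 0 := measure_iUnion_null key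
  rw [ae_iff]
  refine measure_mono_null ?_ hU
  intro t ht
  simp only [mem_ofPred_eq, not_forall, not_not] at ht
  obtain ⟨c, hc, y, hy, hne, he⟩ := ht
  have h5 : c (Fin.last 4) ≠ y (Fin.last 4) := by
    intro h5
    apply hne
    have h0 : prj t (c - y) = 0 := by rw [map_sub, he, sub_self]
    have := prj_eq_zero h0
    rw [Pi.sub_apply, h5, sub_self, zero_smul, sub_eq_zero] at this
    exact this
  have hpos : 0 < |c (Fin.last 4) - y (Fin.last 4)| := abs_pos.2 (sub_ne_zero.2 h5)
  obtain ⟨k₁, hk₁⟩ := exists_nat_one_div_lt hpos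
  obtain ⟨k₂, hk₂⟩ := exists_nat_ge ‖t‖
  refine mem_iUnion.2 ⟨max k₁ k₂, ?_, c, hc, y, hy, ?_, he⟩
  · exact hk₂.trans (by exact_mod_cast le_max_right _ _)
  · refine le_trans ?_ hk₁.le
    have : (k₁ : ℝ) ≤ (max k₁ k₂ : ℕ) := by exact_mod_cast le_max_left _ _
    exact one_div_le_one_div_of_le (by positivity) (by linarith)

end Pool.Agent.Helper59Sob
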